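import Mathlib
import Pool.Agent.Helper549.Tri.SqDefs
import Pool.Agent.TH387.Base
import Pool.Agent.TH387.Final

set_option autoImplicit false

/-!
The square-only triangles (a question of Erdos): for which triangles `T` is every number of
congruent triangles into which `T` can be cut a perfect square?

Definitions (file `Pool/Agent/Helper549/Tri/SqDefs.lean`): `TriSet v` is the closed triangle with
vertices `v 0, v 1, v 2`; `CanCut T N`: the triangle `T` is the union of `N` non-degenerate
triangles with pairwise disjoint interiors, any two of which are congruent by an isometry of the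
plane (reflections allowed, no edge-to-edge condition, arbitrary shape of the pieces);
`SquareOnly T`: every `N ≥ 1` with `CanCut T N` is a perfect square; `side T i` is the length of
the side of `T` opposite to the vertex `T i`.

Definition (file `Pool/Agent/TH387/Base.lean`): `Like S x y z`: the three numbers
`S 0, S 1, S 2` are, in some order, `r * x, r * y, r * z` for some `r > 0`. So
`Like (side T) x y z` says that `T` is similar to the triangle with side lengths `x, y, z`.
-/

namespace Pool.Agent.Results.MP_a03157_co.Classification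

open Pool.Agent.Helper549.Tri Pool.Agent.TH387

/-- A triangle is square-only if and only if it is not one of the following triangles:
* an isosceles triangle;
* a right triangle with legs `p : q`, where `p, q` are positive integers and `p² + q²` is not a
  square;
* the triangle with angles 30, 60 and 90 degrees;
* for a rational number `s` with `0 < s < 1`, the triangle with sides `s(2-s²), 1, 1-s²` if
  `2-s²` is not a square, and the triangle with sides `2-s², 1, (1-s²)(3-s²)` if
  `(2-s²)(3-s²)` is not a square;
* for positive integers `a, b, c` with `c² = a²+ab+b²`, the triangle with sides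
  - `a+b, c, b` if `a(a+b)` is not a square,
  - `(a+b)c, ac, b(2a+b)` if `(a+b)(2a+b)` is not a square,
  - `a(a+2b), c², b(2a+b)` if `(2a+b)(a+2b)` is not a square,
  - `3a(a+b), c², (2a+b)c` if `3(a+b)(2a+b)` is not a square. -/
theorem result (T : Fin 3 → EuclideanSpace ℝ (Fin 2)) (hT : AffineIndependent ℝ T) :
    SquareOnly T ↔ ¬ (
      (∃ i j : Fin 3, i ≠ j ∧ side T i = side T j) ∨
      (∃ p q : ℕ, 0 < p ∧ 0 < q ∧ ¬ IsSquare (p ^ 2 + q ^ 2) ∧
        Like (side T) p q (Real.sqrt ((p : ℝ) ^ 2 + (q : ℝ) ^ 2))) ∨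
      Like (side T) 1 (Real.sqrt 3) 2 ∨
      (∃ s : ℚ, 0 < s ∧ s < 1 ∧ ¬ IsSquare (2 - s ^ 2) ∧
        Like (side T) ((s : ℝ) * (2 - (s : ℝ) ^ 2)) 1 (1 - (s : ℝ) ^ 2)) ∨
      (∃ s : ℚ, 0 < s ∧ s < 1 ∧ ¬ IsSquare ((2 - s ^ 2) * (3 - s ^ 2)) ∧
        Like (side T) (2 - (s : ℝ) ^ 2) 1 ((1 - (s : ℝ) ^ 2) * (3 - (s : ℝ) ^ 2))) ∨
      (∃ a b c : ℕ, 0 < a ∧ 0 < b ∧ c ^ 2 = a ^ 2 + a * b + b ^ 2 ∧
        ((¬ IsSquare (a * (a + b)) ∧ Like (side T) (a + b) c b) ∨
         (¬ IsSquare ((a + b) * (2 * a + b)) ∧
            Like (side T) ((a + b) * c) (a * c) (b * (2 * a + b))) ∨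
         (¬ IsSquare ((2 * a + b) * (a + 2 * b)) ∧
            Like (side T) (a * (a + 2 * b)) ((c : ℝ) ^ 2) (b * (2 * a + b))) ∨
         (¬ IsSquare (3 * (a + b) * (2 * a + b)) ∧
            Like (side T) (3 * a * (a + b)) ((c : ℝ) ^ 2) ((2 * a + b) * c))))) :=
  squareOnly_iff T hT

end Pool.Agent.Results.MP_a03157_co.Classification
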